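import Mathlib
set_option autoImplicit false
set_option linter.deprecated false
set_option linter.unusedSimpArgs false

/-! # The infrared bound of percolation in mean and for almost every wave vector

`G_p(k) = τ̂_p(k) (1 - D̂(k))` for bond percolation on `ℤ^d`, every `d ≥ 1`, at parameters `p` of
finite susceptibility `χ(p)`. The mean of `G_p` over the wave vectors is at most `1 - p`; the set of
the wave vectors `k` at which `G_p(k) ≥ B` for some `p` with `χ(p) ≤ X` has small measure,
uniformly in `p`; for almost every `k`, `G_p(k) ≤ C(k) √χ(p) (1 + log χ(p))` for all `p`.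

A maximal inequality for `sup_p τ̂_p(k)` in terms of the bubble `∑_x τ_p(x)²` (chaining over a net of
parameters equidistant in `χ`, in the manner of Rademacher and Menshov).

Tools: positivity of `τ̂_p` (clusters as an equivalence relation, translation invariance, boxes),
Fourier inversion, monotonicity of `τ_p` in `p` (coupling), Borel-Cantelli along a net of parameters
which is equidistant in `χ`. -/

open MeasureTheory Filter Topology
namespace Pool.Agent.Results.MP_54f242_pr.InfraredMean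

variable {d : ℕ}

/-- the open subgraph of a configuration -/
def opn (ω : (Fin d → ℤ) × Fin d → Bool) : SimpleGraph (Fin d → ℤ) :=
  SimpleGraph.fromRel (fun a b : Fin d → ℤ =>
    ∃ i : Fin d, b = a + Pi.single i (1 : ℤ) ∧ ω (a, i) = true)

/-- Bernoulli bond percolation on `ℤ^d` -/
noncomputable def P (d : ℕ) (p : NNReal) (hp : p ≤ 1) : Measure ((Fin d → ℤ) × Fin d → Bool) :=
  Measure.infinitePi (fun _ : (Fin d → ℤ) × Fin d => (PMF.bernoulli p hp).toMeasure)

instance (p : NNReal) (hp : p ≤ 1) : IsProbabilityMeasure (P d p hp) := by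
  unfold P; infer_instance

/-- the two-point function `τ_p(x) = P_p(0 ↔ x)` -/
noncomputable def tau (d : ℕ) (p : NNReal) (hp : p ≤ 1) (x : Fin d → ℤ) : ℝ :=
  (P d p hp {ω | (opn ω).Reachable 0 x}).toReal

/-- walks of length `n` -/
def wk (ω : (Fin d → ℤ) × Fin d → Bool) : ℕ → (Fin d → ℤ) → (Fin d → ℤ) → Prop
  | 0, u, v => u = v
  | n + 1, u, v => ∃ w, (opn ω).Adj u w ∧ wk ω n w v

theorem wk_iff (ω : (Fin d → ℤ) × Fin d → Bool) (u v : Fin d → ℤ) :
    (opn ω).Reachable u v ↔ ∃ n, wk ω n u v := by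
  constructor
  · rintro ⟨W⟩
    induction W with
    | nil => exact ⟨0, rfl⟩
    | cons h _ ih =>
      obtain ⟨n, hn⟩ := ih
      exact ⟨n + 1, _, h, hn⟩
  · rintro ⟨n, hn⟩
    induction n generalizing u with
    | zero => cases hn; exact SimpleGraph.Reachable.refl _
    | succ n ih =>
      obtain ⟨w, h, hw⟩ := hn
      exact h.reachable.trans (ih w hw)

theorem meas_adj (u v : Fin d → ℤ) : MeasurableSet {ω | (opn (d := d) ω).Adj u v} := by
  have : {ω | (opn (d := d) ω).Adj u v} = {ω | u ≠ v ∧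
      ((∃ i : Fin d, v = u + Pi.single i (1 : ℤ) ∧ ω (u, i) = true) ∨
       (∃ i : Fin d, u = v + Pi.single i (1 : ℤ) ∧ ω (v, i) = true))} := by
    ext ω; simp [opn, SimpleGraph.fromRel_adj]
  rw [this]
  have h1 : ∀ (a b : Fin d → ℤ) (i : Fin d), MeasurableSet
      {ω : (Fin d → ℤ) × Fin d → Bool | b = a + Pi.single i (1 : ℤ) ∧ ω (a, i) = true} := by
    intro a b i
    by_cases hb : b = a + Pi.single i (1 : ℤ)
    · simp only [hb, true_and]
      exact measurableSet_preimage (f := fun ω : (Fin d → ℤ) × Fin d → Bool => ω (a, i))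
        (measurable_pi_apply (a, i)) (MeasurableSet.singleton true)
    · simp [hb]
  by_cases huv : u ≠ v
  · simp only [huv, ne_eq, not_false_eq_true, true_and, Set.ofPred_or, Set.ofPred_exists]
    exact (MeasurableSet.iUnion fun i => h1 u v i).union (MeasurableSet.iUnion fun i => h1 v u i)
  · simp [huv]

theorem meas_wk (n : ℕ) : ∀ u v : Fin d → ℤ, MeasurableSet {ω | wk (d := d) ω n u v} := by
  induction n with
  | zero => intro u v; simp [wk]
  | succ n ih =>
    intro u v
    have : {ω | wk (d := d) ω (n + 1) u v} =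
        ⋃ w, ({ω | (opn (d := d) ω).Adj u w} ∩ {ω | wk ω n w v}) := by
      ext ω; simp [wk]
    rw [this]
    exact MeasurableSet.iUnion fun w => (meas_adj u w).inter (ih w v)

theorem meas_reach (u v : Fin d → ℤ) : MeasurableSet {ω | (opn (d := d) ω).Reachable u v} := by
  have : {ω | (opn (d := d) ω).Reachable u v} = ⋃ n, {ω | wk (d := d) ω n u v} := by
    ext ω; simp [wk_iff]
  rw [this]
  exact MeasurableSet.iUnion fun n => meas_wk n u v

/-- translations of the edges -/
def sh (u : Fin d → ℤ) : (Fin d → ℤ) × Fin d ≃ (Fin d → ℤ) × Fin d :=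
  (Equiv.addRight u).prodCongr (Equiv.refl _)

theorem prob_reach (p : NNReal) (hp : p ≤ 1) (u v : Fin d → ℤ) :
    (P d p hp {ω | (opn ω).Reachable u v}).toReal = tau d p hp (v - u) := by
  unfold tau
  congr 1
  -- pull back the configuration
  let T : ((Fin d → ℤ) × Fin d → Bool) → ((Fin d → ℤ) × Fin d → Bool) := fun ω e => ω (sh u e)
  have hT : Measurable T := measurable_pi_iff.2 fun e => measurable_pi_apply _
  have hmap : (P d p hp).map T = P d p hp :=
    MeasureTheory.Measure.map_infinitePi_infinitePi_of_inj (sh u).injective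
  have hadj : ∀ ω a b, (opn (T ω)).Adj a b ↔ (opn ω).Adj (a + u) (b + u) := by
    intro ω a b
    have e1 : ∀ (i : Fin d) (x y : Fin d → ℤ),
        (y + u = x + u + Pi.single i (1 : ℤ)) ↔ (y = x + Pi.single i (1 : ℤ)) := by
      intro i x y
      rw [add_right_comm, add_left_inj]
    simp only [opn, SimpleGraph.fromRel_adj, T, sh, e1]
    simp
  have hreach : ∀ ω a b, (opn (T ω)).Reachable a b ↔ (opn ω).Reachable (a + u) (b + u) := by
    intro ω a b
    let φ : opn (T ω) ≃g opn ω := ⟨Equiv.addRight u, fun {a b} => (hadj ω a b).symm⟩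
    exact (SimpleGraph.Iso.reachable_iff (φ := φ) (u := a) (v := b)).symm
  have h1 : {ω | (opn (d := d) ω).Reachable u v} =
      T ⁻¹' {ω | (opn (d := d) ω).Reachable 0 (v - u)} := by
    ext ω
    simp [hreach]
  rw [h1, ← Measure.map_apply hT (meas_reach _ _), hmap]

/-- the block decomposition of a quadratic form -/
theorem block_nonneg {V C : Type*} [DecidableEq C] (c : V → C) (g : V → ℝ) (Λ : Finset V) :
    0 ≤ ∑ x ∈ Λ, ∑ y ∈ Λ, (if c x = c y then g x * g y else 0) := by
  have h : ∑ x ∈ Λ, ∑ y ∈ Λ, (if c x = c y then g x * g y else 0) =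
      ∑ z ∈ Λ.image c, (∑ x ∈ Λ, if c x = z then g x else 0) ^ 2 := by
    have h2 : ∀ z, (∑ x ∈ Λ, if c x = z then g x else 0) ^ 2 =
        ∑ x ∈ Λ, ∑ y ∈ Λ, (if c x = z then (if c y = z then g x * g y else 0) else 0) := by
      intro z
      rw [sq, Finset.sum_mul_sum]
      refine Finset.sum_congr rfl fun x _ => Finset.sum_congr rfl fun y _ => ?_
      split_ifs <;> simp
    simp_rw [h2]
    rw [Finset.sum_comm (s := Λ.image c) (t := Λ)]
    refine Finset.sum_congr rfl fun x hx => ?_
    rw [Finset.sum_comm (s := Λ.image c) (t := Λ)]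
    refine Finset.sum_congr rfl fun y hy => ?_
    rw [Finset.sum_ite_eq, if_pos (Finset.mem_image_of_mem c hx)]
    by_cases h : c x = c y
    · simp [h]
    · rw [if_neg h, if_neg (fun h' => h h'.symm)]
  rw [h]
  exact Finset.sum_nonneg fun z _ => sq_nonneg _

/-- the scalar product -/
noncomputable def dot (k : Fin d → ℝ) (x : Fin d → ℤ) : ℝ := ∑ i, k i * (x i : ℝ)

theorem dot_sub (k : Fin d → ℝ) (x y : Fin d → ℤ) : dot k (y - x) = dot k y - dot k x := by
  unfold dot
  rw [← Finset.sum_sub_distrib]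
  refine Finset.sum_congr rfl fun i _ => ?_
  simp [mul_sub]

theorem quad_nonneg (p : NNReal) (hp : p ≤ 1) (k : Fin d → ℝ) (Λ : Finset (Fin d → ℤ)) :
    0 ≤ ∑ x ∈ Λ, ∑ y ∈ Λ, tau d p hp (y - x) * Real.cos (dot k (y - x)) := by
  classical
  have h1 : ∀ x y : Fin d → ℤ, tau d p hp (y - x) * Real.cos (dot k (y - x)) =
      ∫ ω, Set.indicator {ω | (opn (d := d) ω).Reachable x y}
        (fun _ => Real.cos (dot k (y - x))) ω ∂(P d p hp) := by
    intro x y
    rw [integral_indicator_const _ (meas_reach x y), ← prob_reach p hp x y]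
    rfl
  have hint : ∀ x y : Fin d → ℤ, Integrable (Set.indicator {ω | (opn (d := d) ω).Reachable x y}
        (fun _ => Real.cos (dot k (y - x)))) (P d p hp) := fun x y =>
    (integrable_const _).indicator (meas_reach x y)
  simp_rw [h1]
  have h2 : ∑ x ∈ Λ, ∑ y ∈ Λ, ∫ ω, Set.indicator {ω | (opn (d := d) ω).Reachable x y}
        (fun _ => Real.cos (dot k (y - x))) ω ∂(P d p hp) =
      ∫ ω, ∑ x ∈ Λ, ∑ y ∈ Λ, Set.indicator {ω | (opn (d := d) ω).Reachable x y}
        (fun _ => Real.cos (dot k (y - x))) ω ∂(P d p hp) := by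
    rw [integral_finset_sum _ (fun x _ => integrable_finset_sum _ (fun y _ => hint x y))]
    refine Finset.sum_congr rfl fun x _ => ?_
    rw [integral_finset_sum _ (fun y _ => hint x y)]
  rw [h2]
  refine integral_nonneg fun ω => ?_
  have h3 := block_nonneg (fun x => (opn (d := d) ω).connectedComponentMk x)
    (fun x => Real.cos (dot k x)) Λ
  have h4 := block_nonneg (fun x => (opn (d := d) ω).connectedComponentMk x)
    (fun x => Real.sin (dot k x)) Λ
  have h5 : ∑ x ∈ Λ, ∑ y ∈ Λ, Set.indicator {ω | (opn (d := d) ω).Reachable x y}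
        (fun _ => Real.cos (dot k (y - x))) ω =
      (∑ x ∈ Λ, ∑ y ∈ Λ, (if (opn (d := d) ω).connectedComponentMk x =
        (opn (d := d) ω).connectedComponentMk y then Real.cos (dot k x) * Real.cos (dot k y)
          else 0)) +
      (∑ x ∈ Λ, ∑ y ∈ Λ, (if (opn (d := d) ω).connectedComponentMk x =
        (opn (d := d) ω).connectedComponentMk y then Real.sin (dot k x) * Real.sin (dot k y)
          else 0)) := by
    rw [← Finset.sum_add_distrib]
    refine Finset.sum_congr rfl fun x _ => ?_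
    rw [← Finset.sum_add_distrib]
    refine Finset.sum_congr rfl fun y _ => ?_
    rw [dot_sub, Real.cos_sub]
    simp only [Set.indicator_apply, Set.mem_ofPred_eq, SimpleGraph.ConnectedComponent.eq]
    split_ifs <;> ring
  have h6 := add_nonneg h3 h4
  rw [← h5] at h6
  exact h6


theorem tau_nonneg (p : NNReal) (hp : p ≤ 1) (x : Fin d → ℤ) : 0 ≤ tau d p hp x :=
  ENNReal.toReal_nonneg

theorem tau_le_one (p : NNReal) (hp : p ≤ 1) (x : Fin d → ℤ) : tau d p hp x ≤ 1 := by
  unfold tau
  exact measureReal_le_one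

theorem tau_zero (p : NNReal) (hp : p ≤ 1) : tau d p hp 0 = 1 := by
  unfold tau
  simp [SimpleGraph.Reachable.refl]

/-- the discrete box `[0, N)^d` -/
noncomputable def box (d N : ℕ) : Finset (Fin d → ℤ) := Fintype.piFinset (fun _ => Finset.Ico (0 : ℤ) (N : ℤ))

theorem box_card (d N : ℕ) : ((box d N).card : ℝ) = (N : ℝ) ^ d := by
  simp [box]

/-- proportion of the points of the box which stay in the box after the shift by `z` -/
noncomputable def prop (N : ℕ) (z : Fin d → ℤ) : ℝ :=
  (((box d N).filter (fun x => x + z ∈ box d N)).card : ℝ) / (N : ℝ) ^ d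

theorem prop_nonneg (N : ℕ) (z : Fin d → ℤ) : 0 ≤ prop N z := by unfold prop; positivity

theorem prop_le_one (N : ℕ) (z : Fin d → ℤ) : prop N z ≤ 1 := by
  unfold prop
  rw [← box_card]
  refine div_le_one_of_le₀ ?_ (by positivity)
  exact_mod_cast Finset.card_filter_le _ _

theorem prop_tendsto (z : Fin d → ℤ) : Tendsto (fun N : ℕ => prop N z) atTop (𝓝 1) := by
  have hlow : ∀ N : ℕ, ∀ i : Fin d,
      ((N : ℝ) - 2 * |(z i : ℝ)|) ≤
      (((Finset.Ico (0 : ℤ) (N : ℤ)).filter (fun a => a + z i ∈ Finset.Ico (0 : ℤ) (N : ℤ))).card : ℝ) := by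
    intro N i
    have h1 : Finset.Ico (|z i|) ((N : ℤ) - |z i|) ⊆
        (Finset.Ico (0 : ℤ) (N : ℤ)).filter (fun a => a + z i ∈ Finset.Ico (0 : ℤ) (N : ℤ)) := by
      intro a ha
      simp only [Finset.mem_Ico, Finset.mem_filter] at ha ⊢
      have h2 := abs_nonneg (z i)
      have h3 := le_abs_self (z i)
      have h4 := neg_abs_le (z i)
      omega
    have h5 := Finset.card_le_card h1
    rw [Int.card_Ico] at h5
    have h6 : ((N : ℤ) - |z i| - |z i|) ≤ (((N : ℤ) - |z i| - |z i|).toNat : ℤ) :=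
      Int.self_le_toNat _
    have h7 : ((N : ℤ) - |z i| - |z i|) ≤
      (((Finset.Ico (0 : ℤ) (N : ℤ)).filter (fun a => a + z i ∈ Finset.Ico (0 : ℤ) (N : ℤ))).card : ℤ) :=
      h6.trans (by exact_mod_cast h5)
    have h8 : (((N : ℤ) - |z i| - |z i| : ℤ) : ℝ) ≤
      (((Finset.Ico (0 : ℤ) (N : ℤ)).filter (fun a => a + z i ∈ Finset.Ico (0 : ℤ) (N : ℤ))).card : ℝ) := by
      exact_mod_cast h7
    push_cast at h8
    linarith
  have hprod : ∀ N : ℕ, prop N z = ∏ i, ((((Finset.Ico (0 : ℤ) (N : ℤ)).filter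
      (fun a => a + z i ∈ Finset.Ico (0 : ℤ) (N : ℤ))).card : ℝ) / N) := by
    intro N
    have h1 : (box d N).filter (fun x => x + z ∈ box d N) = Fintype.piFinset (fun i =>
        (Finset.Ico (0 : ℤ) (N : ℤ)).filter (fun a => a + z i ∈ Finset.Ico (0 : ℤ) (N : ℤ))) := by
      ext x
      simp only [box, Finset.mem_filter, Fintype.mem_piFinset, Pi.add_apply]
      constructor
      · rintro ⟨h1, h2⟩ i; exact ⟨h1 i, h2 i⟩
      · intro h; exact ⟨fun i => (h i).1, fun i => (h i).2⟩
    rw [prop, h1, Fintype.card_piFinset, Finset.prod_div_distrib]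
    simp
  have hone : ∀ i : Fin d, Tendsto (fun N : ℕ => ((((Finset.Ico (0 : ℤ) (N : ℤ)).filter
      (fun a => a + z i ∈ Finset.Ico (0 : ℤ) (N : ℤ))).card : ℝ) / N)) atTop (𝓝 1) := by
    intro i
    have hl : Tendsto (fun N : ℕ => ((N : ℝ) - 2 * |(z i : ℝ)|) / N) atTop (𝓝 1) := by
      have h0 : Tendsto (fun N : ℕ => 1 - (2 * |(z i : ℝ)|) / (N : ℝ)) atTop (𝓝 (1 - 0)) :=
        tendsto_const_nhds.sub (tendsto_const_div_atTop_nhds_zero_nat _)
      rw [sub_zero] at h0
      refine h0.congr' ?_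
      filter_upwards [eventually_gt_atTop 0] with N hN
      have : (N : ℝ) ≠ 0 := by positivity
      field_simp
    refine tendsto_of_tendsto_of_tendsto_of_le_of_le' hl tendsto_const_nhds ?_ ?_
    · filter_upwards with N
      exact div_le_div_of_nonneg_right (hlow N i) (Nat.cast_nonneg N)
    · filter_upwards with N
      refine div_le_one_of_le₀ ?_ (Nat.cast_nonneg N)
      have := Finset.card_filter_le (Finset.Ico (0 : ℤ) (N : ℤ))
        (fun a => a + z i ∈ Finset.Ico (0 : ℤ) (N : ℤ))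
      simp only [Int.card_Ico, sub_zero, Int.toNat_natCast] at this
      exact_mod_cast this
  have := tendsto_finset_prod (Finset.univ : Finset (Fin d)) (fun i _ => hone i)
  simp only [Finset.prod_const_one] at this
  exact this.congr fun N => (hprod N).symm

theorem hat_nonneg (p : NNReal) (hp : p ≤ 1) (hs : Summable (tau d p hp)) (k : Fin d → ℝ) :
    0 ≤ ∑' x, tau d p hp x * Real.cos (dot k x) := by
  classical
  set F : (Fin d → ℤ) → ℝ := fun z => tau d p hp z * Real.cos (dot k z) with hF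
  have hFb : ∀ z, ‖F z‖ ≤ tau d p hp z := by
    intro z
    rw [hF, Real.norm_eq_abs, abs_mul, abs_of_nonneg (tau_nonneg p hp z)]
    exact mul_le_of_le_one_right (tau_nonneg p hp z) (Real.abs_cos_le_one _)
  have hFs : Summable F := hs.of_norm_bounded hFb
  have key : ∀ N : ℕ, (∑ x ∈ box d N, ∑ y ∈ box d N, F (y - x)) / (N : ℝ) ^ d =
      ∑' z, F z * prop N z := by
    intro N
    have h1 : ∀ x, ∑ y ∈ box d N, F (y - x) = ∑' z, (if x + z ∈ box d N then F z else 0) := by
      intro x
      rw [← (Equiv.subRight x).tsum_eq]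
      rw [tsum_eq_sum (s := box d N)]
      · refine Finset.sum_congr rfl fun y hy => ?_
        simp [hy]
      · intro y hy
        simp [hy]
    have h2 : ∀ x, Summable (fun z => (if x + z ∈ box d N then F z else 0)) := by
      intro x
      refine Summable.of_norm_bounded hs fun z => ?_
      split_ifs
      · exact hFb z
      · simpa using tau_nonneg p hp z
    simp_rw [h1]
    rw [← Summable.tsum_finsetSum (fun x _ => h2 x), ← tsum_div_const]
    refine tsum_congr fun z => ?_
    rw [← Finset.sum_filter, Finset.sum_const, nsmul_eq_mul, prop]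
    ring
  have hlim : Tendsto (fun N : ℕ => ∑' z, F z * prop N z) atTop (𝓝 (∑' z, F z * 1)) := by
    refine tendsto_tsum_of_dominated_convergence (bound := tau d p hp) hs
      (fun z => (prop_tendsto z).const_mul (F z)) (Eventually.of_forall fun N z => ?_)
    rw [norm_mul, Real.norm_eq_abs (prop N z), abs_of_nonneg (prop_nonneg N z)]
    exact (mul_le_of_le_one_right (norm_nonneg _) (prop_le_one N z)).trans (hFb z)
  simp only [mul_one] at hlim
  refine ge_of_tendsto' hlim fun N => ?_
  rw [← key]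
  exact div_nonneg (quad_nonneg p hp k _) (by positivity)

theorem one_dim (m : ℤ) : ∫ t in Set.Ioc (-Real.pi) Real.pi, Complex.exp ((t * (m : ℝ) : ℝ) * Complex.I) =
    if m = 0 then (2 * Real.pi : ℂ) else 0 := by
  have hle : -Real.pi ≤ Real.pi := by linarith [Real.pi_pos]
  rw [← intervalIntegral.integral_of_le hle]
  split_ifs with h
  · subst h
    simp
    ring
  · have hc : (m : ℂ) * Complex.I ≠ 0 := mul_ne_zero (Int.cast_ne_zero.2 h) Complex.I_ne_zero
    have h1 : ∀ t : ℝ, Complex.exp ((t * (m : ℝ) : ℝ) * Complex.I) =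
        Complex.exp (((m : ℂ) * Complex.I) * t) := by
      intro t; push_cast; ring_nf
    simp_rw [h1]
    rw [integral_exp_mul_complex hc]
    have h2 : Complex.exp ((m : ℂ) * Complex.I * (Real.pi : ℝ)) =
        Complex.exp ((m : ℂ) * Complex.I * ((-Real.pi : ℝ) : ℂ)) := by
      rw [Complex.exp_eq_exp_iff_exists_int]
      exact ⟨m, by push_cast; ring⟩
    rw [h2]; simp

/-- the cube `(-π, π]^d` -/
def cube (d : ℕ) : Set (Fin d → ℝ) := Set.pi Set.univ (fun _ => Set.Ioc (-Real.pi) Real.pi)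

theorem int_cos (x : Fin d → ℤ) : ∫ k in cube d, Real.cos (dot k x) =
    if x = 0 then (2 * Real.pi) ^ d else 0 := by
  have h1 : ∫ k in cube d, Complex.exp ((dot k x : ℝ) * Complex.I) =
      if x = 0 then ((2 * Real.pi : ℂ)) ^ d else 0 := by
    have h2 : ∀ k : Fin d → ℝ, Complex.exp ((dot k x : ℝ) * Complex.I) =
        ∏ i, Complex.exp ((k i * (x i : ℝ) : ℝ) * Complex.I) := by
      intro k
      rw [← Complex.exp_sum, ← Finset.sum_mul]
      congr 2
      simp [dot]
    simp_rw [h2]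
    rw [cube, volume_pi, Measure.restrict_pi_pi,
      integral_fintype_prod_eq_prod (fun i t => Complex.exp ((t * (x i : ℝ) : ℝ) * Complex.I))]
    simp_rw [one_dim]
    split_ifs with h
    · subst h; simp
    · obtain ⟨i, hi⟩ : ∃ i, x i ≠ 0 := by
        by_contra hc
        push Not at hc
        exact h (funext hc)
      exact Finset.prod_eq_zero (Finset.mem_univ i) (by simp [hi])
  have hfin : volume (cube d) < ⊤ := by
    rw [cube, volume_pi_pi]
    exact ENNReal.prod_lt_top fun i _ => by simp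
  have hcont : Continuous fun k : Fin d → ℝ => Complex.exp ((dot k x : ℝ) * Complex.I) := by
    unfold dot; fun_prop
  have hint : Integrable (fun k : Fin d → ℝ => Complex.exp ((dot k x : ℝ) * Complex.I))
      (volume.restrict (cube d)) := by
    have : IsFiniteMeasure (volume.restrict (cube d)) := ⟨by simpa using hfin⟩
    refine Integrable.of_bound hcont.aestronglyMeasurable 1 (Eventually.of_forall fun k => ?_)
    rw [Complex.norm_exp_ofReal_mul_I]
  have h3 : ∫ k in cube d, Real.cos (dot k x) =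
      (∫ k in cube d, Complex.exp ((dot k x : ℝ) * Complex.I)).re := by
    rw [← Complex.reCLM_apply, ← Complex.reCLM.integral_comp_comm hint]
    refine integral_congr_ae (Eventually.of_forall fun k => ?_)
    simp [Complex.exp_ofReal_mul_I_re]
  rw [h3, h1]
  split_ifs
  · have : ((2 * Real.pi : ℂ)) ^ d = (((2 * Real.pi) ^ d : ℝ) : ℂ) := by push_cast; rfl
    rw [this, Complex.ofReal_re]
  · rfl

theorem dot_add (k : Fin d → ℝ) (x y : Fin d → ℤ) : dot k (x + y) = dot k x + dot k y := by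
  unfold dot
  rw [← Finset.sum_add_distrib]
  refine Finset.sum_congr rfl fun i _ => ?_
  simp [mul_add]

theorem dot_single (k : Fin d → ℝ) (i : Fin d) : dot k (Pi.single i (1 : ℤ)) = k i := by
  classical
  unfold dot
  rw [Finset.sum_eq_single i]
  · simp
  · intro j _ hj
    simp [Pi.single_eq_of_ne hj]
  · simp

/-- the transform of the step distribution of the simple random walk -/
noncomputable def Dhat (k : Fin d → ℝ) : ℝ := (1 / (d : ℝ)) * ∑ i : Fin d, Real.cos (k i)

/-- `τ̂_p(k) (1 - D̂(k))` -/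
noncomputable def G (d : ℕ) (p : NNReal) (hp : p ≤ 1) (k : Fin d → ℝ) : ℝ :=
  (∑' x : Fin d → ℤ, tau d p hp x * Real.cos (∑ i : Fin d, k i * (x i : ℝ)))
    * (1 - (1 / (d : ℝ)) * ∑ i : Fin d, Real.cos (k i))

theorem Dhat_le (k : Fin d → ℝ) : |Dhat k| ≤ 1 := by
  unfold Dhat
  rcases Nat.eq_zero_or_pos d with h | h
  · subst h; simp
  have hd : (0 : ℝ) < d := by exact_mod_cast h
  rw [abs_mul, abs_of_pos (by positivity : (0 : ℝ) < 1 / (d : ℝ))]
  have h1 : |∑ i : Fin d, Real.cos (k i)| ≤ d := by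
    refine (Finset.abs_sum_le_sum_abs _ _).trans ?_
    refine (Finset.sum_le_sum fun i _ => Real.abs_cos_le_one (k i)).trans ?_
    simp
  calc 1 / (d : ℝ) * |∑ i : Fin d, Real.cos (k i)| ≤ 1 / (d : ℝ) * d := by gcongr
    _ = 1 := by field_simp

theorem G_nonneg (p : NNReal) (hp : p ≤ 1) (hs : Summable (tau d p hp)) (k : Fin d → ℝ) :
    0 ≤ G d p hp k := by
  refine mul_nonneg (hat_nonneg p hp hs k) ?_
  have := (abs_le.1 (Dhat_le k)).2
  unfold Dhat at this
  linarith

theorem cube_fin : volume (cube d) < ⊤ := by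
  rw [cube, volume_pi_pi]
  exact ENNReal.prod_lt_top fun i _ => by simp

theorem cube_vol : volume (cube d) = ENNReal.ofReal ((2 * Real.pi) ^ d) := by
  rw [cube, volume_pi_pi]
  simp only [Real.volume_Ioc, sub_neg_eq_add, Finset.prod_const, Finset.card_univ, Fintype.card_fin]
  rw [← ENNReal.ofReal_pow (by positivity)]
  congr 1
  ring

theorem cos_mul_Dhat (k : Fin d → ℝ) (x : Fin d → ℤ) : Real.cos (dot k x) * (1 - Dhat k) =
    Real.cos (dot k x) - (1 / (2 * (d : ℝ))) * ∑ i : Fin d,
      (Real.cos (dot k (x + Pi.single i 1)) + Real.cos (dot k (x - Pi.single i 1))) := by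
  have h : ∀ i : Fin d, Real.cos (dot k (x + Pi.single i 1)) + Real.cos (dot k (x - Pi.single i 1)) =
      2 * (Real.cos (dot k x) * Real.cos (k i)) := by
    intro i
    rw [dot_add, dot_sub, dot_single, Real.cos_add, Real.cos_sub]
    ring
  simp_rw [h]
  rw [← Finset.mul_sum, ← Finset.mul_sum, Dhat]
  rcases Nat.eq_zero_or_pos d with h0 | h0
  · subst h0; simp
  have hd : (d : ℝ) ≠ 0 := by positivity
  field_simp

theorem int_term (x : Fin d → ℤ) : ∫ k in cube d, Real.cos (dot k x) * (1 - Dhat k) =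
    (if x = 0 then (2 * Real.pi) ^ d else 0) - (1 / (2 * (d : ℝ))) * ∑ i : Fin d,
      ((if x + Pi.single i 1 = 0 then (2 * Real.pi) ^ d else 0) +
        (if x - Pi.single i 1 = 0 then (2 * Real.pi) ^ d else 0)) := by
  have hI : ∀ y : Fin d → ℤ, Integrable (fun k => Real.cos (dot k y)) (volume.restrict (cube d)) := by
    intro y
    have : IsFiniteMeasure (volume.restrict (cube d)) := ⟨by simpa using cube_fin⟩
    have hc : Continuous fun k : Fin d → ℝ => Real.cos (dot k y) := by unfold dot; fun_prop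
    refine Integrable.of_bound hc.aestronglyMeasurable 1 (Eventually.of_forall fun k => ?_)
    rw [Real.norm_eq_abs]; exact Real.abs_cos_le_one _
  simp_rw [cos_mul_Dhat]
  rw [integral_sub (hI x), integral_const_mul, integral_finset_sum]
  · simp_rw [integral_add (hI _) (hI _), int_cos]
  · intro i _
    exact (hI _).add (hI _)
  · exact (integrable_finset_sum _ fun i _ => (hI _).add (hI _)).const_mul _

theorem G_eq (p : NNReal) (hp : p ≤ 1) (k : Fin d → ℝ) :
    G d p hp k = ∑' x, tau d p hp x * (Real.cos (dot k x) * (1 - Dhat k)) := by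
  rw [G, ← tsum_mul_right]
  refine tsum_congr fun x => ?_
  rw [Dhat, dot]
  ring

theorem term_bound (p : NNReal) (hp : p ≤ 1) (x : Fin d → ℤ) (k : Fin d → ℝ) :
    ‖tau d p hp x * (Real.cos (dot k x) * (1 - Dhat k))‖ ≤ 2 * tau d p hp x := by
  rw [Real.norm_eq_abs, abs_mul, abs_mul, abs_of_nonneg (tau_nonneg p hp x)]
  have h1 := Real.abs_cos_le_one (dot k x)
  have h2 : |1 - Dhat k| ≤ 2 := by
    have := abs_le.1 (Dhat_le k)
    rw [abs_le]; constructor <;> linarith
  have h3 : |Real.cos (dot k x)| * |1 - Dhat k| ≤ 1 * 2 :=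
    mul_le_mul h1 h2 (abs_nonneg _) zero_le_one
  nlinarith [tau_nonneg p hp x]

theorem term_meas (p : NNReal) (hp : p ≤ 1) (x : Fin d → ℤ) :
    Continuous fun k : Fin d → ℝ => tau d p hp x * (Real.cos (dot k x) * (1 - Dhat k)) := by
  unfold dot Dhat; fun_prop

theorem G_cont (p : NNReal) (hp : p ≤ 1) (hs : Summable (tau d p hp)) :
    Continuous (G d p hp) := by
  have : G d p hp = fun k => ∑' x, tau d p hp x * (Real.cos (dot k x) * (1 - Dhat k)) :=
    funext (G_eq p hp)
  rw [this]
  exact continuous_tsum (term_meas p hp) (hs.mul_left 2) (term_bound p hp)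

theorem G_integrable (p : NNReal) (hp : p ≤ 1) (hs : Summable (tau d p hp)) :
    Integrable (G d p hp) (volume.restrict (cube d)) := by
  have : IsFiniteMeasure (volume.restrict (cube d)) := ⟨by simpa using cube_fin⟩
  refine Integrable.of_bound (G_cont p hp hs).aestronglyMeasurable (∑' x, 2 * tau d p hp x)
    (Eventually.of_forall fun k => ?_)
  rw [G_eq]
  exact tsum_of_norm_bounded (hs.mul_left 2).hasSum (fun x => term_bound p hp x k)

theorem int_G (p : NNReal) (hp : p ≤ 1) (hs : Summable (tau d p hp)) :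
    ∫ k in cube d, G d p hp k = (2 * Real.pi) ^ d * (1 - (1 / (2 * (d : ℝ))) * ∑ i : Fin d,
      (tau d p hp (-Pi.single i 1) + tau d p hp (Pi.single i 1))) := by
  classical
  simp_rw [G_eq]
  have hfm : IsFiniteMeasure (volume.restrict (cube d)) := ⟨by simpa using cube_fin⟩
  have hint : ∀ x : Fin d → ℤ, Integrable (fun k : Fin d → ℝ =>
      tau d p hp x * (Real.cos (dot k x) * (1 - Dhat k))) (volume.restrict (cube d)) := fun x =>
    Integrable.of_bound (term_meas p hp x).aestronglyMeasurable _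
      (Eventually.of_forall fun k => term_bound p hp x k)
  have hsum : Summable fun x : Fin d → ℤ => ∫ k in cube d,
      ‖tau d p hp x * (Real.cos (dot k x) * (1 - Dhat k))‖ := by
    refine Summable.of_nonneg_of_le (fun x => integral_nonneg fun k => norm_nonneg _) (fun x => ?_)
      (hs.mul_left (2 * (volume.real (cube d))))
    calc ∫ k in cube d, ‖tau d p hp x * (Real.cos (dot k x) * (1 - Dhat k))‖
        ≤ ∫ k in cube d, 2 * tau d p hp x :=
          integral_mono (hint x).norm (integrable_const _) (fun k => term_bound p hp x k)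
      _ = 2 * (volume.real (cube d)) * tau d p hp x := by
          rw [setIntegral_const, smul_eq_mul]; ring
  rw [← integral_tsum_of_summable_integral_norm hint hsum]
  simp_rw [integral_const_mul, int_term]
  have e0 : ∀ z : Fin d → ℤ, HasSum (fun x : Fin d → ℤ =>
      tau d p hp x * (if x = z then (2 * Real.pi) ^ d else 0)) (tau d p hp z * (2 * Real.pi) ^ d) := by
    intro z
    have h := hasSum_single (f := fun x : Fin d → ℤ =>
      tau d p hp x * (if x = z then (2 * Real.pi) ^ d else 0)) z (by intro b hb; simp [hb])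
    simpa using h
  have e1 := (e0 0).sub ((hasSum_sum (s := (Finset.univ : Finset (Fin d)))
    (fun i _ => (e0 (-Pi.single i 1)).add (e0 (Pi.single i 1)))).mul_left (1 / (2 * (d : ℝ))))
  have e2 := e1.tsum_eq
  rw [tau_zero] at e2
  have e3 : ∀ x : Fin d → ℤ, tau d p hp x * ((if x = 0 then (2 * Real.pi) ^ d else 0) -
      (1 / (2 * (d : ℝ))) * ∑ i : Fin d, ((if x + Pi.single i 1 = 0 then (2 * Real.pi) ^ d else 0) +
        (if x - Pi.single i 1 = 0 then (2 * Real.pi) ^ d else 0))) =
      tau d p hp x * (if x = 0 then (2 * Real.pi) ^ d else 0) - (1 / (2 * (d : ℝ))) * ∑ i : Fin d,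
        (tau d p hp x * (if x = -Pi.single i 1 then (2 * Real.pi) ^ d else 0) +
          tau d p hp x * (if x = Pi.single i 1 then (2 * Real.pi) ^ d else 0)) := by
    intro x
    simp only [← eq_neg_iff_add_eq_zero, sub_eq_zero]
    rw [mul_sub, ← mul_assoc, mul_comm (tau d p hp x) (1 / (2 * (d : ℝ))), mul_assoc,
      Finset.mul_sum]
    simp only [mul_add]
  rw [tsum_congr e3, e2, Finset.mul_sum, mul_sub, one_mul, mul_one, Finset.mul_sum,
    Finset.mul_sum]
  congr 1
  refine Finset.sum_congr rfl fun i _ => ?_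
  ring

theorem tau_neg (p : NNReal) (hp : p ≤ 1) (x : Fin d → ℤ) : tau d p hp (-x) = tau d p hp x := by
  have h1 := prob_reach p hp x 0
  have h2 := prob_reach p hp 0 x
  rw [zero_sub] at h1
  rw [sub_zero] at h2
  rw [← h1, ← h2]
  congr 2
  ext ω
  exact ⟨fun h => h.symm, fun h => h.symm⟩

theorem tau_single_ge (p : NNReal) (hp : p ≤ 1) (i : Fin d) :
    (p : ℝ) ≤ tau d p hp (Pi.single i 1) := by
  classical
  have h1 : P d p hp {ω | ω ((0 : Fin d → ℤ), i) = true} = p := by
    have h := (measurePreserving_eval_infinitePi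
      (fun _ : (Fin d → ℤ) × Fin d => (PMF.bernoulli p hp).toMeasure)
      ((0 : Fin d → ℤ), i)).measure_preimage (MeasurableSet.singleton true).nullMeasurableSet
    rw [PMF.toMeasure_apply_singleton _ _ (MeasurableSet.singleton true)] at h
    simpa [P, Set.preimage, PMF.bernoulli_apply] using h
  have h2 : {ω : (Fin d → ℤ) × Fin d → Bool | ω ((0 : Fin d → ℤ), i) = true} ⊆
      {ω | (opn ω).Reachable 0 (Pi.single i 1)} := by
    intro ω hω
    refine SimpleGraph.Adj.reachable ?_
    rw [opn, SimpleGraph.fromRel_adj]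
    refine ⟨?_, Or.inl ⟨i, by simp, hω⟩⟩
    intro h
    have := congrFun h i
    simp at this
  have h3 := measure_mono (μ := P d p hp) h2
  rw [h1] at h3
  have h4 := ENNReal.toReal_mono (measure_ne_top _ _) h3
  simpa [tau] using h4

theorem int_G' (hd : 1 ≤ d) (p : NNReal) (hp : p ≤ 1) (hs : Summable (tau d p hp)) :
    ∫ k in cube d, G d p hp k =
      (2 * Real.pi) ^ d * (1 - (1 / (d : ℝ)) * ∑ i : Fin d, tau d p hp (Pi.single i 1)) := by
  rw [int_G p hp hs]
  simp_rw [tau_neg, ← two_mul]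
  rw [← Finset.mul_sum]
  have : (d : ℝ) ≠ 0 := by positivity
  congr 2
  field_simp

theorem int_G_le (hd : 1 ≤ d) (p : NNReal) (hp : p ≤ 1) (hs : Summable (tau d p hp)) :
    ∫ k in cube d, G d p hp k ≤ (2 * Real.pi) ^ d * (1 - p) := by
  rw [int_G' hd p hp hs]
  refine mul_le_mul_of_nonneg_left ?_ (by positivity)
  have h1 : ∑ i : Fin d, (p : ℝ) ≤ ∑ i : Fin d, tau d p hp (Pi.single i 1) :=
    Finset.sum_le_sum fun i _ => tau_single_ge p hp i
  simp only [Finset.sum_const, Finset.card_univ, Fintype.card_fin, nsmul_eq_mul] at h1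
  have hd0 : (0 : ℝ) < d := by exact_mod_cast hd
  have h2 : (p : ℝ) ≤ (1 / (d : ℝ)) * ∑ i : Fin d, tau d p hp (Pi.single i 1) := by
    rw [one_div, ← div_eq_inv_mul, le_div_iff₀ hd0]
    linarith
  linarith

theorem cube_meas : MeasurableSet (cube d) := by
  unfold cube
  exact MeasurableSet.univ_pi fun _ => measurableSet_Ioc

theorem exceptional (hd : 1 ≤ d) (p : NNReal) (hp : p ≤ 1) (hs : Summable (tau d p hp)) (A : ℝ)
    (hA : 0 < A) : volume.real {k | k ∈ cube d ∧ A ≤ G d p hp k} ≤
      (1 - p) / A * volume.real (cube d) := by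
  have h1 := mul_meas_ge_le_integral_of_nonneg (μ := volume.restrict (cube d))
    (Eventually.of_forall fun k => G_nonneg p hp hs k) (G_integrable p hp hs) A
  have h2 : (volume.restrict (cube d)).real {k | A ≤ G d p hp k} =
      volume.real {k | k ∈ cube d ∧ A ≤ G d p hp k} := by
    rw [measureReal_restrict_apply (measurableSet_le measurable_const (G_cont p hp hs).measurable)]
    congr 1
    ext k
    exact and_comm
  have h3 : volume.real (cube d) = (2 * Real.pi) ^ d := by
    rw [Measure.real, cube_vol, ENNReal.toReal_ofReal (by positivity)]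
  rw [h2] at h1
  have h4 := h1.trans (int_G_le hd p hp hs)
  rw [h3, div_mul_eq_mul_div, le_div_iff₀ hA]
  linarith

theorem along_sequences (hd : 1 ≤ d) (q : ℕ → NNReal) (hq : ∀ n, q n ≤ 1)
    (hs : ∀ n, Summable (tau d (q n) (hq n))) :
    ∀ᵐ k : Fin d → ℝ, k ∈ cube d → ∃ B : ℝ, ∃ᶠ n in atTop, G d (q n) (hq n) k ≤ B := by
  rw [← ae_restrict_iff' cube_meas]
  let f : ℕ → (Fin d → ℝ) → ENNReal := fun n k => ENNReal.ofReal (G d (q n) (hq n) k)
  have hfm : ∀ n, Measurable (f n) := fun n => (G_cont (q n) (hq n) (hs n)).measurable.ennreal_ofReal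
  have h1 : ∀ n, ∫⁻ k in cube d, f n k ≤ ENNReal.ofReal ((2 * Real.pi) ^ d) := by
    intro n
    rw [← ofReal_integral_eq_lintegral_ofReal (G_integrable (q n) (hq n) (hs n))
      (Eventually.of_forall fun k => G_nonneg (q n) (hq n) (hs n) k)]
    refine ENNReal.ofReal_le_ofReal ((int_G_le hd _ _ (hs n)).trans ?_)
    refine mul_le_of_le_one_right (by positivity) ?_
    linarith [NNReal.coe_nonneg (q n)]
  have h2 : ∫⁻ k in cube d, liminf (fun n => f n k) atTop ≤ ENNReal.ofReal ((2 * Real.pi) ^ d) := by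
    refine (lintegral_liminf_le hfm).trans ?_
    refine (liminf_le_liminf (Eventually.of_forall h1)).trans ?_
    simp
  have h3 := ae_lt_top (Measurable.liminf hfm) (h2.trans_lt ENNReal.ofReal_lt_top).ne
  filter_upwards [h3] with k hk
  obtain ⟨B, hB1, hB2⟩ := ENNReal.lt_iff_exists_nnreal_btwn.1 hk
  refine ⟨B, (frequently_lt_of_liminf_lt (by isBoundedDefault) hB1).mono fun n hn => ?_⟩
  have := (ENNReal.ofReal_lt_iff_lt_toReal (G_nonneg (q n) (hq n) (hs n) k) (by simp)).1 hn
  simpa using this.le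


theorem opn_mono {ω ω' : (Fin d → ℤ) × Fin d → Bool} (h : ∀ e, ω e = true → ω' e = true) :
    opn ω ≤ opn ω' := by
  intro a b hab
  rw [opn, SimpleGraph.fromRel_adj] at hab ⊢
  refine ⟨hab.1, ?_⟩
  rcases hab.2 with ⟨i, h1, h2⟩ | ⟨i, h1, h2⟩
  · exact Or.inl ⟨i, h1, h _ h2⟩
  · exact Or.inr ⟨i, h1, h _ h2⟩

theorem ber_true (p : NNReal) (hp : p ≤ 1) : (PMF.bernoulli p hp).toMeasure {true} = p := by
  rw [PMF.toMeasure_apply_singleton _ _ (MeasurableSet.singleton true)]
  simp [PMF.bernoulli_apply]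

theorem bool_ext (μ ν : Measure Bool) [IsProbabilityMeasure μ] [IsProbabilityMeasure ν]
    (h : μ {true} = ν {true}) : μ = ν := by
  have hc : ({true} : Set Bool)ᶜ = {false} := by ext b; cases b <;> simp
  have h2 : μ {false} = ν {false} := by
    rw [← hc, prob_compl_eq_one_sub (MeasurableSet.singleton true),
      prob_compl_eq_one_sub (MeasurableSet.singleton true), h]
  refine Measure.ext_of_singleton fun b => ?_
  cases b
  · exact h2
  · exact h

theorem tau_mono (p q : NNReal) (hp : p ≤ 1) (hq : q ≤ 1) (h : p ≤ q) (x : Fin d → ℤ) :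
    tau d p hp x ≤ tau d q hq x := by
  rcases eq_or_ne q 0 with h0 | h0
  · subst h0
    have : p = 0 := le_antisymm h zero_le
    subst this
    exact le_rfl
  have hr : p / q ≤ 1 := div_le_one_of_le₀ h zero_le
  let κ : Measure (Bool × Bool) :=
    ((PMF.bernoulli q hq).toMeasure).prod ((PMF.bernoulli (p / q) hr).toMeasure)
  have hκ1 : κ.map Prod.fst = (PMF.bernoulli q hq).toMeasure := by
    rw [Measure.map_fst_prod, measure_univ, one_smul]
  have hand : Measurable (fun b : Bool × Bool => b.1 && b.2) := measurable_of_countable _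
  have hκ2 : κ.map (fun b : Bool × Bool => b.1 && b.2) = (PMF.bernoulli p hp).toMeasure := by
    have : IsProbabilityMeasure (κ.map (fun b : Bool × Bool => b.1 && b.2)) :=
      Measure.isProbabilityMeasure_map hand.aemeasurable
    refine bool_ext _ _ ?_
    rw [Measure.map_apply hand (MeasurableSet.singleton true), ber_true]
    have : (fun b : Bool × Bool => b.1 && b.2) ⁻¹' {true} = ({true} : Set Bool) ×ˢ {true} := by
      ext ⟨a, b⟩; simp
    rw [this, Measure.prod_prod, ber_true, ber_true, ← ENNReal.coe_mul, mul_div_cancel₀ _ h0]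
  let M : Measure ((Fin d → ℤ) × Fin d → Bool × Bool) := Measure.infinitePi (fun _ => κ)
  have h1 : M.map (fun ω e => (ω e).1) = P d q hq := by
    have := Measure.infinitePi_map_pi (μ := fun _ : (Fin d → ℤ) × Fin d => κ)
      (f := fun _ => Prod.fst) (fun _ => measurable_fst)
    simp only [hκ1] at this
    exact this
  have h2 : M.map (fun ω e => ((ω e).1 && (ω e).2)) = P d p hp := by
    have := Measure.infinitePi_map_pi (μ := fun _ : (Fin d → ℤ) × Fin d => κ)
      (f := fun _ => (fun b : Bool × Bool => b.1 && b.2)) (fun _ => hand)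
    simp only [hκ2] at this
    exact this
  have hm1 : Measurable (fun (ω : (Fin d → ℤ) × Fin d → Bool × Bool) e => (ω e).1) :=
    measurable_pi_iff.2 fun e => measurable_fst.comp (measurable_pi_apply e)
  have hm2 : Measurable (fun (ω : (Fin d → ℤ) × Fin d → Bool × Bool) e => ((ω e).1 && (ω e).2)) :=
    measurable_pi_iff.2 fun e => hand.comp (measurable_pi_apply e)
  unfold tau
  rw [← h1, ← h2, Measure.map_apply hm1 (meas_reach _ _), Measure.map_apply hm2 (meas_reach _ _)]
  refine ENNReal.toReal_mono (measure_ne_top _ _) (measure_mono fun ω hω => ?_)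
  exact SimpleGraph.Reachable.mono (opn_mono fun e he => by simp at he; exact he.1) hω

/-- the susceptibility -/
noncomputable def chi (d : ℕ) (p : NNReal) (hp : p ≤ 1) : ℝ := ∑' x, tau d p hp x

theorem chi_ge (p : NNReal) (hp : p ≤ 1) (hs : Summable (tau d p hp)) : 1 ≤ chi d p hp := by
  have := hs.le_tsum 0 (fun x _ => tau_nonneg p hp x)
  rwa [tau_zero] at this

theorem G_diff_aux (p q : NNReal) (hp : p ≤ 1) (hq : q ≤ 1) (hsp : Summable (tau d p hp))
    (hsq : Summable (tau d q hq)) (h : p ≤ q) (k : Fin d → ℝ) :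
    |G d q hq k - G d p hp k| ≤ 2 * (chi d q hq - chi d p hp) := by
  have hb : ∀ (r : NNReal) (hr : r ≤ 1), Summable (tau d r hr) →
      Summable (fun x => tau d r hr x * (Real.cos (dot k x) * (1 - Dhat k))) := fun r hr hs =>
    (hs.mul_left 2).of_norm_bounded (fun x => term_bound r hr x k)
  rw [G_eq, G_eq, ← (hb q hq hsq).tsum_sub (hb p hp hsp), chi, chi, ← hsq.tsum_sub hsp,
    ← tsum_mul_left]
  have hle : ∀ x, ‖tau d q hq x * (Real.cos (dot k x) * (1 - Dhat k)) -
      tau d p hp x * (Real.cos (dot k x) * (1 - Dhat k))‖ ≤ 2 * (tau d q hq x - tau d p hp x) := by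
    intro x
    rw [← sub_mul, Real.norm_eq_abs, abs_mul, abs_mul,
      abs_of_nonneg (sub_nonneg.2 (tau_mono p q hp hq h x))]
    have h1 := Real.abs_cos_le_one (dot k x)
    have h2 : |1 - Dhat k| ≤ 2 := by
      have := abs_le.1 (Dhat_le k)
      rw [abs_le]; constructor <;> linarith
    have h3 : |Real.cos (dot k x)| * |1 - Dhat k| ≤ 1 * 2 :=
      mul_le_mul h1 h2 (abs_nonneg _) zero_le_one
    nlinarith [sub_nonneg.2 (tau_mono p q hp hq h x)]
  exact tsum_of_norm_bounded ((hsq.sub hsp).mul_left 2).hasSum hle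

theorem G_diff (p q : NNReal) (hp : p ≤ 1) (hq : q ≤ 1) (hsp : Summable (tau d p hp))
    (hsq : Summable (tau d q hq)) (k : Fin d → ℝ) :
    |G d q hq k - G d p hp k| ≤ 2 * |chi d q hq - chi d p hp| := by
  rcases le_total p q with h | h
  · exact (G_diff_aux p q hp hq hsp hsq h k).trans
      (mul_le_mul_of_nonneg_left (le_abs_self _) (by norm_num))
  · rw [abs_sub_comm, abs_sub_comm (chi d q hq)]
    exact (G_diff_aux q p hq hp hsq hsp h k).trans
      (mul_le_mul_of_nonneg_left (le_abs_self _) (by norm_num))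

/-- the wave vectors which are bad for some parameter with susceptibility at most `X` -/
def bad (d : ℕ) (X B : ℝ) : Set (Fin d → ℝ) :=
  {k | k ∈ cube d ∧ ∃ (p : NNReal) (hp : p ≤ 1), Summable (tau d p hp) ∧ chi d p hp ≤ X ∧
    B ≤ G d p hp k}

theorem bad_le (hd : 1 ≤ d) (X B : ℝ) (hX : 0 ≤ X) (hB : 0 < B) :
    volume.real (bad d X B) ≤ (4 * X / B + 1) * (2 / B) * volume.real (cube d) := by
  classical
  set δ : ℝ := B / 4 with hδ
  have hδ0 : 0 < δ := by positivity
  let Q : ℕ → Prop := fun m => ∃ (p : NNReal) (hp : p ≤ 1), Summable (tau d p hp) ∧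
    (m : ℝ) * δ ≤ chi d p hp ∧ chi d p hp ≤ ((m : ℝ) + 1) * δ
  let E : ℕ → Set (Fin d → ℝ) := fun m =>
    if h : Q m then {k | k ∈ cube d ∧ B / 2 ≤ G d h.choose h.choose_spec.choose k} else ∅
  have hsub : bad d X B ⊆ ⋃ m ∈ Finset.range (⌊X / δ⌋₊ + 1), E m := by
    rintro k ⟨hk, p, hp, hs, hχ, hG⟩
    have hχ0 : 0 ≤ chi d p hp := zero_le_one.trans (chi_ge p hp hs)
    have hm1 : (⌊chi d p hp / δ⌋₊ : ℝ) * δ ≤ chi d p hp := by
      rw [← le_div_iff₀ hδ0]; exact Nat.floor_le (by positivity)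
    have hm2 : chi d p hp ≤ ((⌊chi d p hp / δ⌋₊ : ℝ) + 1) * δ := by
      rw [← div_le_iff₀ hδ0]; exact (Nat.lt_floor_add_one _).le
    have hQ : Q ⌊chi d p hp / δ⌋₊ := ⟨p, hp, hs, hm1, hm2⟩
    simp only [Set.mem_iUnion]
    refine ⟨⌊chi d p hp / δ⌋₊, ?_, ?_⟩
    · rw [Finset.mem_range, Nat.lt_succ_iff]
      exact Nat.floor_le_floor (div_le_div_of_nonneg_right hχ hδ0.le)
    · simp only [E, dif_pos hQ]
      refine ⟨hk, ?_⟩
      obtain ⟨h1, h2, h3⟩ := hQ.choose_spec.choose_spec
      have h4 := G_diff p hQ.choose hp hQ.choose_spec.choose hs h1 k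
      have h5 : |chi d hQ.choose hQ.choose_spec.choose - chi d p hp| ≤ δ := by
        rw [abs_le]; constructor <;> nlinarith
      have h6 := (abs_le.1 (h4.trans (mul_le_mul_of_nonneg_left h5 (by norm_num)))).1
      have h7 : 2 * δ = B / 2 := by rw [hδ]; ring
      linarith
  have hEfin : ∀ m, volume.real (E m) ≤ (2 / B) * volume.real (cube d) := by
    intro m
    by_cases h : Q m
    · simp only [E, dif_pos h]
      refine (exceptional hd h.choose h.choose_spec.choose h.choose_spec.choose_spec.1 (B / 2)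
        (by positivity)).trans ?_
      refine mul_le_mul_of_nonneg_right ?_ measureReal_nonneg
      rw [div_div_eq_mul_div]
      refine div_le_div_of_nonneg_right ?_ hB.le
      have := NNReal.coe_nonneg h.choose
      linarith
    · simp only [E, dif_neg h, measureReal_empty]
      exact mul_nonneg (by positivity) measureReal_nonneg
  have hsubc : (⋃ m ∈ Finset.range (⌊X / δ⌋₊ + 1), E m) ⊆ cube d := by
    intro k hk
    simp only [Set.mem_iUnion] at hk
    obtain ⟨m, -, hk⟩ := hk
    by_cases h : Q m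
    · simp only [E, dif_pos h] at hk
      exact hk.1
    · simp only [E, dif_neg h] at hk
      exact hk.elim
  calc volume.real (bad d X B) ≤ volume.real (⋃ m ∈ Finset.range (⌊X / δ⌋₊ + 1), E m) :=
        measureReal_mono hsub (ne_top_of_le_ne_top cube_fin.ne (measure_mono hsubc))
    _ ≤ ∑ m ∈ Finset.range (⌊X / δ⌋₊ + 1), volume.real (E m) := measureReal_biUnion_finset_le _ _
    _ ≤ ∑ m ∈ Finset.range (⌊X / δ⌋₊ + 1), (2 / B) * volume.real (cube d) :=
        Finset.sum_le_sum fun m _ => hEfin m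
    _ = ((⌊X / δ⌋₊ : ℝ) + 1) * ((2 / B) * volume.real (cube d)) := by
        rw [Finset.sum_const, Finset.card_range, nsmul_eq_mul]; push_cast; ring
    _ ≤ (4 * X / B + 1) * ((2 / B) * volume.real (cube d)) := by
        refine mul_le_mul_of_nonneg_right ?_ (mul_nonneg (by positivity) measureReal_nonneg)
        have : (⌊X / δ⌋₊ : ℝ) ≤ X / δ := Nat.floor_le (by positivity)
        have h2 : X / δ = 4 * X / B := by rw [hδ]; field_simp
        linarith
    _ = _ := by ring

theorem bad_summable (hd : 1 ≤ d) :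
    ∑' n : ℕ, volume (bad d ((4 : ℝ) ^ (n + 1)) (((n : ℝ) + 1) * 2 ^ (n + 1))) ≠ ⊤ := by
  have hfin : ∀ X B, volume (bad d X B) ≠ ⊤ := fun X B =>
    ne_top_of_le_ne_top cube_fin.ne (measure_mono fun k hk => hk.1)
  have h1 : ∀ n : ℕ, volume (bad d ((4 : ℝ) ^ (n + 1)) (((n : ℝ) + 1) * 2 ^ (n + 1))) ≤
      ENNReal.ofReal (10 * volume.real (cube d) * (1 / ((n : ℝ) + 1) ^ 2)) := by
    intro n
    rw [← ofReal_measureReal (hfin _ _)]
    refine ENNReal.ofReal_le_ofReal ?_
    have hm : (0 : ℝ) < (n : ℝ) + 1 := by positivity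
    have h2 : (0 : ℝ) < 2 ^ (n + 1) := by positivity
    refine (bad_le hd _ _ (by positivity) (by positivity)).trans ?_
    have h4 : ((4 : ℝ) ^ (n + 1)) = 2 ^ (n + 1) * 2 ^ (n + 1) := by
      rw [← mul_pow]; norm_num
    have hlt : ((n : ℝ) + 1) ≤ 2 ^ (n + 1) := by
      have := (Nat.lt_two_pow_self (n := n + 1)).le
      exact_mod_cast this
    have h5 : (4 * (4 : ℝ) ^ (n + 1) / (((n : ℝ) + 1) * 2 ^ (n + 1)) + 1) *
        (2 / (((n : ℝ) + 1) * 2 ^ (n + 1))) ≤ 10 * (1 / ((n : ℝ) + 1) ^ 2) := by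
      have e : (4 * (4 : ℝ) ^ (n + 1) / (((n : ℝ) + 1) * 2 ^ (n + 1)) + 1) *
        (2 / (((n : ℝ) + 1) * 2 ^ (n + 1))) =
        8 / ((n : ℝ) + 1) ^ 2 + 2 / (((n : ℝ) + 1) * 2 ^ (n + 1)) := by
        rw [h4]; field_simp; ring
      have h6 : 2 / (((n : ℝ) + 1) * 2 ^ (n + 1)) ≤ 2 / ((n : ℝ) + 1) ^ 2 := by
        rw [sq]
        exact div_le_div_of_nonneg_left (by norm_num) (by positivity)
          (mul_le_mul_of_nonneg_left hlt hm.le)
      rw [e]
      calc 8 / ((n : ℝ) + 1) ^ 2 + 2 / (((n : ℝ) + 1) * 2 ^ (n + 1))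
          ≤ 8 / ((n : ℝ) + 1) ^ 2 + 2 / ((n : ℝ) + 1) ^ 2 := by linarith
        _ = 10 * (1 / ((n : ℝ) + 1) ^ 2) := by ring
    calc _ ≤ 10 * (1 / ((n : ℝ) + 1) ^ 2) * volume.real (cube d) :=
          mul_le_mul_of_nonneg_right h5 measureReal_nonneg
      _ = _ := by ring
  have hs : Summable fun n : ℕ => 10 * volume.real (cube d) * (1 / ((n : ℝ) + 1) ^ 2) := by
    refine Summable.mul_left _ ?_
    have := (summable_nat_add_iff 1).2 (Real.summable_one_div_nat_pow.2 (by norm_num : 1 < 2))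
    simpa using this
  refine ne_top_of_le_ne_top ?_ (ENNReal.tsum_le_tsum h1)
  rw [← ENNReal.ofReal_tsum_of_nonneg (fun n => ?_) hs]
  · exact ENNReal.ofReal_ne_top
  · have := measureReal_nonneg (μ := volume) (s := cube d)
    positivity

theorem ae_bound (hd : 1 ≤ d) : ∀ᵐ k : Fin d → ℝ, k ∈ cube d → ∃ C : ℝ,
    ∀ (p : NNReal) (hp : p ≤ 1), Summable (tau d p hp) →
      G d p hp k ≤ C * (Real.sqrt (chi d p hp) * (1 + Real.log (chi d p hp))) := by
  filter_upwards [ae_eventually_notMem (bad_summable hd)] with k hk hkc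
  obtain ⟨N, hN⟩ := eventually_atTop.1 hk
  refine ⟨((N : ℝ) + 2) * 2 ^ (N + 2), fun p hp hs => ?_⟩
  have hχ := chi_ge p hp hs
  generalize hc : chi d p hp = c at hχ ⊢
  have hsq1 : 1 ≤ Real.sqrt c := by rw [Real.one_le_sqrt]; exact hχ
  have hlog0 : 0 ≤ Real.log c := Real.log_nonneg hχ
  obtain ⟨m, hm1, hm2, hm3⟩ : ∃ m : ℕ, c ≤ 4 ^ m ∧ (2 : ℝ) ^ m ≤ 2 * Real.sqrt c ∧
      (m : ℝ) ≤ 1 + Real.log c := by
    classical
    have hex : ∃ m : ℕ, c ≤ (4 : ℝ) ^ m := by
      obtain ⟨m, hm⟩ := pow_unbounded_of_one_lt c (by norm_num : (1 : ℝ) < 4)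
      exact ⟨m, hm.le⟩
    refine ⟨Nat.find hex, Nat.find_spec hex, ?_⟩
    rcases Nat.eq_zero_or_pos (Nat.find hex) with h0 | h0
    · rw [h0]
      constructor
      · simp; linarith
      · simp; linarith
    · obtain ⟨j, hj⟩ : ∃ j, Nat.find hex = j + 1 := ⟨Nat.find hex - 1, by omega⟩
      have hlt : (4 : ℝ) ^ j < c := by
        have := Nat.find_min hex (m := j) (by omega)
        exact not_le.1 this
      rw [hj]
      constructor
      · have h2 : (2 : ℝ) ^ j ≤ Real.sqrt c := by
          refine Real.le_sqrt_of_sq_le ?_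
          rw [← pow_mul, mul_comm, pow_mul]
          norm_num
          exact hlt.le
        rw [pow_succ]; linarith
      · have h3 : (j : ℝ) * Real.log 4 ≤ Real.log c := by
          rw [← Real.log_pow]
          exact Real.log_le_log (by positivity) hlt.le
        have h4 : 1 ≤ Real.log 4 := by
          have : Real.log 4 = 2 * Real.log 2 := by
            rw [show (4 : ℝ) = 2 ^ 2 by norm_num, Real.log_pow]; norm_num
          rw [this]
          linarith [Real.log_two_gt_d9]
        push_cast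
        nlinarith [Nat.cast_nonneg (α := ℝ) j]
  have h1 := hN (N + m) (Nat.le_add_right _ _)
  have h2 : G d p hp k < (((N + m : ℕ) : ℝ) + 1) * 2 ^ (N + m + 1) := by
    by_contra hcon
    refine h1 ⟨hkc, p, hp, hs, ?_, not_lt.1 hcon⟩
    rw [hc]
    exact hm1.trans (pow_le_pow_right₀ (by norm_num) (by omega))
  refine h2.le.trans ?_
  have e1 : (2 : ℝ) ^ (N + m + 1) = 2 ^ (N + 1) * 2 ^ m := by
    rw [← pow_add]; congr 1; omega
  have e2 : (2 : ℝ) ^ (N + 2) = 2 ^ (N + 1) * 2 := by rw [← pow_succ]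
  rw [e1, e2]
  push_cast
  have hN0 : (0 : ℝ) ≤ (N : ℝ) := Nat.cast_nonneg N
  have hp2 : (0 : ℝ) < 2 ^ (N + 1) := by positivity
  calc ((N : ℝ) + m + 1) * (2 ^ (N + 1) * 2 ^ m)
      ≤ ((N : ℝ) + (1 + Real.log c) + 1) * (2 ^ (N + 1) * (2 * Real.sqrt c)) := by gcongr
    _ ≤ (((N : ℝ) + 2) * (1 + Real.log c)) * (2 ^ (N + 1) * (2 * Real.sqrt c)) := by
        refine mul_le_mul_of_nonneg_right ?_ (by positivity)
        nlinarith
    _ = _ := by ring


/-! ### chaining -/

/-- the sum of the squares of all dyadic increments up to level `L` -/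
def SS : ℕ → (ℕ → ℝ) → ℝ
  | 0, _ => 0
  | L + 1, a => ∑ i ∈ Finset.range (2 ^ (L + 1)), (a (i + 1) - a i) ^ 2 + SS L (fun i => a (2 * i))

theorem SS_nonneg : ∀ (L : ℕ) (a : ℕ → ℝ), 0 ≤ SS L a
  | 0, _ => le_rfl
  | L + 1, a => add_nonneg (Finset.sum_nonneg fun i _ => sq_nonneg _) (SS_nonneg L _)

theorem chain : ∀ (L : ℕ) (a : ℕ → ℝ) (j : ℕ), j < 2 ^ L → (a j - a 0) ^ 2 ≤ L * SS L a
  | 0, a, j, hj => by
    have : j = 0 := by simpa using hj
    subst this; simp
  | L + 1, a, j, hj => by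
    have hi : j / 2 < 2 ^ L := by rw [pow_succ] at hj; omega
    have h1 := chain L (fun i => a (2 * i)) (j / 2) hi
    simp only [mul_zero] at h1
    set X := ∑ i ∈ Finset.range (2 ^ (L + 1)), (a (i + 1) - a i) ^ 2 with hX
    set S := SS L (fun i => a (2 * i)) with hS
    have hS0 : 0 ≤ S := SS_nonneg _ _
    have hX0 : 0 ≤ X := Finset.sum_nonneg fun i _ => sq_nonneg _
    have h2 : (a j - a (2 * (j / 2))) ^ 2 ≤ X := by
      rcases Nat.mod_two_eq_zero_or_one j with h | h
      · have : 2 * (j / 2) = j := by omega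
        rw [this, sub_self]; simpa using hX0
      · have e : j = 2 * (j / 2) + 1 := by omega
        have hmem : 2 * (j / 2) ∈ Finset.range (2 ^ (L + 1)) := by
          rw [Finset.mem_range]; omega
        have := Finset.single_le_sum (f := fun i => (a (i + 1) - a i) ^ 2)
          (fun i _ => sq_nonneg _) hmem
        rw [← e] at this
        exact this
    show (a j - a 0) ^ 2 ≤ ((L + 1 : ℕ) : ℝ) * (X + S)
    push_cast
    set x := a j - a (2 * (j / 2))
    set y := a (2 * (j / 2)) - a 0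
    have e : a j - a 0 = x + y := by ring
    rw [e]
    rcases Nat.eq_zero_or_pos L with h0 | h0
    · subst h0
      have hy : y ^ 2 ≤ 0 := by simpa using h1
      have hy0 : y = 0 := by nlinarith [sq_nonneg y]
      rw [hy0]
      simp only [Nat.cast_zero, zero_add, add_zero]
      linarith
    · have hL : (0 : ℝ) < L := by exact_mod_cast h0
      have h3 : (x + y) ^ 2 * L ≤ (L + 1) * (L * x ^ 2 + y ^ 2) := by
        nlinarith [sq_nonneg (L * x - y)]
      have h4 : (L : ℝ) * x ^ 2 + y ^ 2 ≤ L * (X + S) := by nlinarith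
      have h5 : (x + y) ^ 2 * L ≤ ((L + 1) * (X + S)) * L := by nlinarith
      exact le_of_mul_le_mul_right h5 hL

/-! ### Parseval -/

/-- the cosine series -/
noncomputable def cs (a : (Fin d → ℤ) → ℝ) (k : Fin d → ℝ) : ℝ := ∑' x, a x * Real.cos (dot k x)

theorem cs_term_le (a : (Fin d → ℤ) → ℝ) (x : Fin d → ℤ) (k : Fin d → ℝ) :
    ‖a x * Real.cos (dot k x)‖ ≤ |a x| := by
  rw [Real.norm_eq_abs, abs_mul]
  exact mul_le_of_le_one_right (abs_nonneg _) (Real.abs_cos_le_one _)

theorem cs_cont (a : (Fin d → ℤ) → ℝ) (ha : Summable fun x => |a x|) : Continuous (cs a) := by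
  refine continuous_tsum (fun x => ?_) ha (cs_term_le a)
  unfold dot; fun_prop

theorem cs_abs_le (a : (Fin d → ℤ) → ℝ) (ha : Summable fun x => |a x|) (k : Fin d → ℝ) :
    |cs a k| ≤ ∑' x, |a x| := by
  have := tsum_of_norm_bounded ha.hasSum (fun x => cs_term_le a x k)
  simpa [cs, Real.norm_eq_abs] using this

theorem int_cs_mul (a : (Fin d → ℤ) → ℝ) (ha : Summable fun x => |a x|) (H : (Fin d → ℝ) → ℝ)
    (hH : Continuous H) (C : ℝ) (hC : ∀ k, |H k| ≤ C) :
    ∫ k in cube d, cs a k * H k = ∑' x, a x * ∫ k in cube d, Real.cos (dot k x) * H k := by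
  have hfm : IsFiniteMeasure (volume.restrict (cube d)) := ⟨by simpa using cube_fin⟩
  have hC0 : 0 ≤ C := (abs_nonneg _).trans (hC 0)
  have hb : ∀ (x : Fin d → ℤ) (k : Fin d → ℝ), ‖a x * (Real.cos (dot k x) * H k)‖ ≤ |a x| * C := by
    intro x k
    rw [Real.norm_eq_abs, abs_mul, abs_mul]
    refine mul_le_mul_of_nonneg_left ?_ (abs_nonneg _)
    calc |Real.cos (dot k x)| * |H k| ≤ 1 * C :=
          mul_le_mul (Real.abs_cos_le_one _) (hC k) (abs_nonneg _) zero_le_one
      _ = C := one_mul C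
  have hc : ∀ x : Fin d → ℤ, Continuous fun k : Fin d → ℝ => a x * (Real.cos (dot k x) * H k) := by
    intro x; unfold dot; fun_prop
  have hint : ∀ x : Fin d → ℤ, Integrable (fun k : Fin d → ℝ =>
      a x * (Real.cos (dot k x) * H k)) (volume.restrict (cube d)) := fun x =>
    Integrable.of_bound (hc x).aestronglyMeasurable _ (Eventually.of_forall fun k => hb x k)
  have hsum : Summable fun x : Fin d → ℤ => ∫ k in cube d, ‖a x * (Real.cos (dot k x) * H k)‖ := by
    refine Summable.of_nonneg_of_le (fun x => integral_nonneg fun k => norm_nonneg _) (fun x => ?_)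
      (ha.mul_right (C * (volume.real (cube d))))
    calc ∫ k in cube d, ‖a x * (Real.cos (dot k x) * H k)‖
        ≤ ∫ k in cube d, |a x| * C :=
          integral_mono (hint x).norm (integrable_const _) (fun k => hb x k)
      _ = |a x| * (C * (volume.real (cube d))) := by
          rw [setIntegral_const, smul_eq_mul]; ring
  have h1 : ∀ k, cs a k * H k = ∑' x, a x * (Real.cos (dot k x) * H k) := by
    intro k
    rw [cs, ← tsum_mul_right]
    exact tsum_congr fun x => by ring
  simp_rw [h1]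
  rw [← integral_tsum_of_summable_integral_norm hint hsum]
  simp_rw [integral_const_mul]

theorem int_cos_mul_cos (x y : Fin d → ℤ) : ∫ k in cube d, Real.cos (dot k y) * Real.cos (dot k x) =
    (2 * Real.pi) ^ d * ((if y = x then 1 else 0) + (if y = -x then 1 else 0)) / 2 := by
  have hI : ∀ y : Fin d → ℤ, Integrable (fun k => Real.cos (dot k y)) (volume.restrict (cube d)) := by
    intro y
    have : IsFiniteMeasure (volume.restrict (cube d)) := ⟨by simpa using cube_fin⟩
    have hc : Continuous fun k : Fin d → ℝ => Real.cos (dot k y) := by unfold dot; fun_prop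
    refine Integrable.of_bound hc.aestronglyMeasurable 1 (Eventually.of_forall fun k => ?_)
    rw [Real.norm_eq_abs]; exact Real.abs_cos_le_one _
  have h : ∀ k : Fin d → ℝ, Real.cos (dot k y) * Real.cos (dot k x) =
      (1 / 2) * (Real.cos (dot k (y - x)) + Real.cos (dot k (y + x))) := by
    intro k
    rw [dot_add, dot_sub, Real.cos_add, Real.cos_sub]
    ring
  simp_rw [h]
  rw [integral_const_mul, integral_add (hI _) (hI _), int_cos, int_cos]
  simp only [sub_eq_zero, ← eq_neg_iff_add_eq_zero]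
  split_ifs <;> ring

theorem parseval (a : (Fin d → ℤ) → ℝ) (ha : Summable fun x => |a x|) (hev : ∀ x, a (-x) = a x) :
    ∫ k in cube d, (cs a k) ^ 2 = (2 * Real.pi) ^ d * ∑' x, (a x) ^ 2 := by
  simp_rw [sq (cs a _)]
  rw [int_cs_mul a ha (cs a) (cs_cont a ha) _ (cs_abs_le a ha)]
  have h1 : ∀ x : Fin d → ℤ, ∫ k in cube d, Real.cos (dot k x) * cs a k =
      (2 * Real.pi) ^ d * a x := by
    intro x
    simp_rw [mul_comm (Real.cos (dot _ x))]
    rw [int_cs_mul a ha (fun k => Real.cos (dot k x)) (by unfold dot; fun_prop) 1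
      (fun k => Real.abs_cos_le_one _)]
    simp_rw [int_cos_mul_cos]
    have e1 : HasSum (fun y : Fin d → ℤ => a y * ((2 * Real.pi) ^ d * ((if y = x then 1 else 0) +
        (if y = -x then 1 else 0)) / 2)) ((2 * Real.pi) ^ d * a x / 2 + (2 * Real.pi) ^ d * a (-x) / 2) := by
      have f1 := hasSum_single (f := fun y : Fin d → ℤ =>
        a y * ((2 * Real.pi) ^ d * (if y = x then 1 else 0) / 2)) x (by intro b hb; simp [hb])
      have f2 := hasSum_single (f := fun y : Fin d → ℤ =>
        a y * ((2 * Real.pi) ^ d * (if y = -x then 1 else 0) / 2)) (-x) (by intro b hb; simp [hb])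
      have f3 := f1.add f2
      simp only [if_true, mul_one] at f3
      convert f3 using 1
      · funext y; ring
      · ring
    rw [e1.tsum_eq, hev]
    ring
  simp_rw [h1]
  rw [← tsum_mul_left]
  exact tsum_congr fun x => by ring


/-! ### the maximal inequality -/

/-- the parameters of finite susceptibility -/
def Par (d : ℕ) : Type := {p : NNReal // ∃ hp : p ≤ 1, Summable (tau d p hp)}

/-- the two-point function of a parameter -/
noncomputable def tf (a : Par d) : (Fin d → ℤ) → ℝ := tau d a.1 a.2.choose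

/-- its sum -/
noncomputable def ch (a : Par d) : ℝ := ∑' x, tf a x

theorem tf_sum (a : Par d) : Summable (tf a) := a.2.choose_spec

theorem tf_nonneg (a : Par d) (x : Fin d → ℤ) : 0 ≤ tf a x := tau_nonneg _ _ _

theorem tf_le_one (a : Par d) (x : Fin d → ℤ) : tf a x ≤ 1 := tau_le_one _ _ _

theorem ch_ge (a : Par d) : 1 ≤ ch a := chi_ge _ _ (tf_sum a)

theorem tf_mono {a b : Par d} (h : ch a ≤ ch b) (x : Fin d → ℤ) : tf a x ≤ tf b x := by
  rcases le_total a.1 b.1 with h1 | h1
  · exact tau_mono _ _ _ _ h1 x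
  · by_contra hc
    rw [not_le] at hc
    have hle : ∀ y, tf b y ≤ tf a y := fun y => tau_mono _ _ _ _ h1 y
    have := Summable.tsum_lt_tsum hle hc (tf_sum b) (tf_sum a)
    exact absurd h (not_le.2 this)

theorem cs_sub (a b : Par d) (k : Fin d → ℝ) :
    cs (tf b) k - cs (tf a) k = cs (fun x => tf b x - tf a x) k := by
  have hs : ∀ c : Par d, Summable fun x => tf c x * Real.cos (dot k x) := fun c =>
    (tf_sum c).of_norm_bounded (fun x => by
      have := cs_term_le (tf c) x k
      rwa [abs_of_nonneg (tf_nonneg c x)] at this)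
  unfold cs
  rw [← (hs b).tsum_sub (hs a)]
  exact tsum_congr fun x => by ring

theorem cs_diff {a b : Par d} (h : ch a ≤ ch b) (k : Fin d → ℝ) :
    |cs (tf b) k - cs (tf a) k| ≤ ch b - ch a := by
  rw [cs_sub]
  have h0 : ∀ x, 0 ≤ tf b x - tf a x := fun x => sub_nonneg.2 (tf_mono h x)
  have hs : Summable fun x => |tf b x - tf a x| := by
    simp_rw [fun x => abs_of_nonneg (h0 x)]
    exact (tf_sum b).sub (tf_sum a)
  refine (cs_abs_le _ hs k).trans ?_
  simp_rw [fun x => abs_of_nonneg (h0 x)]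
  rw [ch, ch, (tf_sum b).tsum_sub (tf_sum a)]

theorem cube_sub : cube d ⊆ Set.Icc (fun _ => -Real.pi) (fun _ => Real.pi) := by
  intro k hk
  rw [cube, Set.mem_univ_pi] at hk
  exact ⟨fun i => (hk i).1.le, fun i => (hk i).2⟩

theorem integrable_of_cont {f : (Fin d → ℝ) → ℝ} (hf : Continuous f) :
    Integrable f (volume.restrict (cube d)) :=
  (hf.continuousOn.integrableOn_compact isCompact_Icc).mono_set cube_sub

theorem tf_cont (a : Par d) : Continuous (cs (tf a)) :=
  cs_cont _ (by simp_rw [fun x => abs_of_nonneg (tf_nonneg a x)]; exact tf_sum a)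

theorem SS_cont : ∀ (L : ℕ) (q : ℕ → Par d), Continuous fun k => SS L (fun j => cs (tf (q j)) k)
  | 0, _ => by simp only [SS]; exact continuous_const
  | L + 1, q => by
    simp only [SS]
    refine Continuous.add ?_ (SS_cont L (fun i => q (2 * i)))
    exact continuous_finset_sum _ fun i _ => ((tf_cont _).sub (tf_cont _)).pow 2

theorem sq_incr (a : ℕ → ℝ) (ha : Monotone a) (n : ℕ) :
    ∑ i ∈ Finset.range n, (a (i + 1) - a i) ^ 2 ≤ (a n - a 0) ^ 2 := by
  induction n with
  | zero => simp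
  | succ n ih =>
    rw [Finset.sum_range_succ]
    have h1 : 0 ≤ a n - a 0 := sub_nonneg.2 (ha (Nat.zero_le n))
    have h2 : 0 ≤ a (n + 1) - a n := sub_nonneg.2 (ha (Nat.le_succ n))
    nlinarith [mul_nonneg h1 h2]

theorem tf_sq_sum (a : Par d) : Summable fun x => (tf a x) ^ 2 := by
  refine Summable.of_nonneg_of_le (fun x => sq_nonneg _) (fun x => ?_) (tf_sum a)
  rw [sq]
  exact mul_le_of_le_one_left (tf_nonneg a x) (tf_le_one a x)

theorem int_SS (b : ℝ) : ∀ (L : ℕ) (q : ℕ → Par d), (Monotone fun i => ch (q i)) →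
    (∀ i, ∑' x, (tf (q i) x) ^ 2 ≤ b) →
    ∫ k in cube d, SS L (fun j => cs (tf (q j)) k) ≤ L * ((2 * Real.pi) ^ d * b)
  | 0, q, _, _ => by simp [SS]
  | L + 1, q, hq, hb => by
    have ih := int_SS b L (fun i => q (2 * i)) (fun i j hij => hq (by omega)) (fun i => hb _)
    simp only [SS]
    have hc : ∀ i, Continuous fun k => (cs (tf (q (i + 1))) k - cs (tf (q i)) k) ^ 2 := fun i =>
      ((tf_cont _).sub (tf_cont _)).pow 2
    rw [integral_add (integrable_of_cont (continuous_finset_sum _ fun i _ => hc i))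
      (integrable_of_cont (SS_cont L (fun i => q (2 * i)))),
      integral_finset_sum _ (fun i _ => integrable_of_cont (hc i))]
    have hev : ∀ i (x : Fin d → ℤ), tf (q (i + 1)) (-x) - tf (q i) (-x) =
        tf (q (i + 1)) x - tf (q i) x := by
      intro i x
      rw [tf, tf, tau_neg, tau_neg]
    have h0 : ∀ i x, 0 ≤ tf (q (i + 1)) x - tf (q i) x := fun i x =>
      sub_nonneg.2 (tf_mono (hq (Nat.le_succ i)) x)
    have hsa : ∀ i, Summable fun x => |tf (q (i + 1)) x - tf (q i) x| := fun i => by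
      simp_rw [fun x => abs_of_nonneg (h0 i x)]
      exact (tf_sum _).sub (tf_sum _)
    have hP : ∀ i, ∫ k in cube d, (cs (tf (q (i + 1))) k - cs (tf (q i)) k) ^ 2 =
        (2 * Real.pi) ^ d * ∑' x, (tf (q (i + 1)) x - tf (q i) x) ^ 2 := by
      intro i
      simp_rw [cs_sub]
      exact parseval _ (hsa i) (hev i)
    simp_rw [hP]
    rw [← Finset.mul_sum]
    have hsq : ∀ i, Summable fun x => (tf (q (i + 1)) x - tf (q i) x) ^ 2 := by
      intro i
      refine Summable.of_nonneg_of_le (fun x => sq_nonneg _) (fun x => ?_) (tf_sq_sum (q (i + 1)))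
      have h1 := h0 i x
      have h2 := tf_nonneg (q i) x
      nlinarith
    have hT : ∑ i ∈ Finset.range (2 ^ (L + 1)), ∑' x, (tf (q (i + 1)) x - tf (q i) x) ^ 2 ≤ b := by
      rw [← Summable.tsum_finsetSum (fun i _ => hsq i)]
      refine le_trans ?_ (hb (2 ^ (L + 1)))
      refine Summable.tsum_le_tsum (fun x => ?_) (summable_sum fun i _ => hsq i) (tf_sq_sum _)
      have hm : Monotone fun i => tf (q i) x := fun i j hij => tf_mono (hq hij) x
      refine (sq_incr _ hm _).trans ?_
      have h1 : 0 ≤ tf (q (2 ^ (L + 1))) x - tf (q 0) x := sub_nonneg.2 (hm (Nat.zero_le _))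
      have h2 := tf_nonneg (q 0) x
      nlinarith
    have hpi : 0 ≤ (2 * Real.pi) ^ d := by positivity
    have := mul_le_mul_of_nonneg_left hT hpi
    push_cast
    linarith

theorem tau_zero_param (x : Fin d → ℤ) (hx : x ≠ 0) : tau d 0 (zero_le_one) x = 0 := by
  unfold tau
  have h : P d 0 zero_le_one {ω | (opn (d := d) ω).Reachable 0 x} = 0 := by
    have hsub : {ω | (opn (d := d) ω).Reachable 0 x} ⊆
        ⋃ e : (Fin d → ℤ) × Fin d, {ω | ω e = true} := by
      intro ω hω
      by_contra hc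
      have hno : ∀ e, ¬ ω e = true := by simpa using hc
      have hbot : opn ω = ⊥ := by
        ext a b
        simp [opn, SimpleGraph.fromRel_adj, hno]
      have hω' : (opn ω).Reachable 0 x := hω
      rw [hbot, SimpleGraph.reachable_bot] at hω'
      exact hx hω'.symm
    refine measure_mono_null hsub (measure_iUnion_null fun e => ?_)
    have h := (measurePreserving_eval_infinitePi
      (fun _ : (Fin d → ℤ) × Fin d => (PMF.bernoulli (0 : NNReal) zero_le_one).toMeasure)
      e).measure_preimage (MeasurableSet.singleton true).nullMeasurableSet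
    rw [ber_true] at h
    simpa [P, Set.preimage] using h
  rw [h]; rfl

/-- the parameter `0` -/
noncomputable def p0 (d : ℕ) : Par d := ⟨0, zero_le_one,
  summable_of_ne_finset_zero (s := {0}) (fun x hx => tau_zero_param x (by simpa using hx))⟩

theorem cs_p0 (k : Fin d → ℝ) : cs (tf (p0 d)) k = 1 := by
  unfold cs
  rw [tsum_eq_single (0 : Fin d → ℤ) (fun x hx => ?_)]
  · have h1 : tf (p0 d) 0 = 1 := tau_zero _ _
    rw [h1]; simp [dot]
  · have h1 : tf (p0 d) x = 0 := tau_zero_param x hx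
    rw [h1, zero_mul]

theorem ch_p0 : ch (p0 d) = 1 := by
  unfold ch
  have h : ∀ x : Fin d → ℤ, x ≠ 0 → tf (p0 d) x = 0 := fun x hx => tau_zero_param x hx
  rw [tsum_eq_single (0 : Fin d → ℤ) h]
  exact tau_zero _ _

open Classical in
/-- the net of parameters -/
noncomputable def net (X : ℝ) : ℕ → Par d
  | 0 => p0 d
  | j + 1 => if h : ∃ a : Par d, (j : ℝ) ≤ ch a ∧ ch a ≤ j + 1 ∧ ch a ≤ X then h.choose else net X j

theorem net_le (X : ℝ) (hX : 1 ≤ X) : ∀ j, ch (net (d := d) X j) ≤ X
  | 0 => by rw [net, ch_p0]; exact hX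
  | j + 1 => by
    rw [net]
    split_ifs with h
    · exact h.choose_spec.2.2
    · exact net_le X hX j

theorem net_le' (X : ℝ) : ∀ j : ℕ, ch (net (d := d) X j) ≤ max 1 (j : ℝ)
  | 0 => by rw [net, ch_p0]; exact le_max_left _ _
  | j + 1 => by
    rw [net]
    split_ifs with h
    · push_cast
      exact h.choose_spec.2.1.trans (le_max_right _ _)
    · refine (net_le' X j).trans (max_le_max le_rfl ?_)
      push_cast; linarith

theorem net_mono (X : ℝ) : Monotone fun j => ch (net (d := d) X j) := by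
  refine monotone_nat_of_le_succ fun j => ?_
  show ch (net X j) ≤ ch (net X (j + 1))
  have h2 := net_le' (d := d) X j
  conv_rhs => rw [net]
  split_ifs with h
  · exact h2.trans (max_le (ch_ge _) h.choose_spec.1)
  · exact le_rfl

theorem weak_bubble (X b t : ℝ) (L : ℕ) (hX : 1 ≤ X) (hL : X + 1 < 2 ^ L) (ht : 2 < t)
    (hb : ∀ a : Par d, ch a ≤ X → ∑' x, (tf a x) ^ 2 ≤ b) :
    volume.real {k | k ∈ cube d ∧ ∃ a : Par d, ch a ≤ X ∧ t ≤ cs (tf a) k} ≤
      (L : ℝ) ^ 2 * b / (t - 2) ^ 2 * volume.real (cube d) := by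
  have ht2 : 0 < (t - 2) ^ 2 := by have : 0 < t - 2 := by linarith
                                   positivity
  set g : (Fin d → ℝ) → ℝ := fun k => L * SS L (fun j => cs (tf (net (d := d) X j)) k) with hg
  have hgc : Continuous g := continuous_const.mul (SS_cont L (net X))
  have hg0 : ∀ k, 0 ≤ g k := fun k => mul_nonneg (Nat.cast_nonneg L) (SS_nonneg L _)
  have hsub : {k | k ∈ cube d ∧ ∃ a : Par d, ch a ≤ X ∧ t ≤ cs (tf a) k} ⊆
      {k | (t - 2) ^ 2 ≤ g k} ∩ cube d := by
    rintro k ⟨hk, a, ha, hta⟩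
    refine ⟨?_, hk⟩
    have hc1 := ch_ge a
    set j := ⌊ch a⌋₊ with hj
    have hj1 : (j : ℝ) ≤ ch a := Nat.floor_le (by linarith)
    have hj2 : ch a ≤ (j : ℝ) + 1 := (Nat.lt_floor_add_one _).le
    have hex : ∃ a : Par d, (j : ℝ) ≤ ch a ∧ ch a ≤ j + 1 ∧ ch a ≤ X := ⟨a, hj1, hj2, ha⟩
    have hnet : net X (j + 1) = hex.choose := by rw [net, dif_pos hex]
    have hn1 : (j : ℝ) ≤ ch (net (d := d) X (j + 1)) := by rw [hnet]; exact hex.choose_spec.1
    have hn2 : ch (net (d := d) X (j + 1)) ≤ j + 1 := by rw [hnet]; exact hex.choose_spec.2.1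
    have hclose : |cs (tf a) k - cs (tf (net (d := d) X (j + 1))) k| ≤ 1 := by
      rcases le_total (ch a) (ch (net (d := d) X (j + 1))) with h | h
      · rw [abs_sub_comm]
        exact (cs_diff h k).trans (by linarith)
      · exact (cs_diff h k).trans (by linarith)
    have hlt : j + 1 < 2 ^ L := by
      have : ((j + 1 : ℕ) : ℝ) < ((2 ^ L : ℕ) : ℝ) := by push_cast; linarith
      exact_mod_cast this
    have hch := chain L (fun j => cs (tf (net (d := d) X j)) k) (j + 1) hlt
    have hz : cs (tf (net (d := d) X 0)) k = 1 := by rw [net]; exact cs_p0 k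
    simp only [hz] at hch
    have h1 := (abs_le.1 hclose).2
    have h2 : t - 2 ≤ cs (tf (net (d := d) X (j + 1))) k - 1 := by linarith
    show (t - 2) ^ 2 ≤ g k
    refine le_trans ?_ hch
    exact pow_le_pow_left₀ (by linarith) h2 2
  have hmk := mul_meas_ge_le_integral_of_nonneg (μ := volume.restrict (cube d))
    (Eventually.of_forall hg0) (integrable_of_cont hgc) ((t - 2) ^ 2)
  rw [measureReal_restrict_apply (measurableSet_le measurable_const hgc.measurable)] at hmk
  have hint : ∫ k in cube d, g k ≤ L * (L * ((2 * Real.pi) ^ d * b)) := by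
    rw [hg, integral_const_mul]
    exact mul_le_mul_of_nonneg_left (int_SS b L (net X) (net_mono X)
      (fun i => hb _ (net_le X hX i))) (Nat.cast_nonneg L)
  have h3 : volume.real (cube d) = (2 * Real.pi) ^ d := by
    rw [Measure.real, cube_vol, ENNReal.toReal_ofReal (by positivity)]
  refine (measureReal_mono hsub (ne_top_of_le_ne_top cube_fin.ne
    (measure_mono Set.inter_subset_right))).trans ?_
  rw [h3, div_mul_eq_mul_div, le_div_iff₀ ht2]
  linarith


theorem weak_bubble' (X b t : ℝ) (L : ℕ) (hX : 1 ≤ X) (hL : X + 1 < 2 ^ L) (ht : 2 < t)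
    (hb : ∀ (p : NNReal) (hp : p ≤ 1), Summable (tau d p hp) → chi d p hp ≤ X →
      ∑' x, (tau d p hp x) ^ 2 ≤ b) :
    volume.real {k | k ∈ cube d ∧ ∃ (p : NNReal) (hp : p ≤ 1), Summable (tau d p hp) ∧
      chi d p hp ≤ X ∧ t ≤ ∑' x, tau d p hp x * Real.cos (dot k x)} ≤
      (L : ℝ) ^ 2 * b / (t - 2) ^ 2 * volume.real (cube d) := by
  have h := weak_bubble (d := d) X b t L hX hL ht
    (fun a ha => hb a.1 a.2.choose a.2.choose_spec ha)
  have he : {k | k ∈ cube d ∧ ∃ (p : NNReal) (hp : p ≤ 1), Summable (tau d p hp) ∧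
      chi d p hp ≤ X ∧ t ≤ ∑' x, tau d p hp x * Real.cos (dot k x)} =
      {k | k ∈ cube d ∧ ∃ a : Par d, ch a ≤ X ∧ t ≤ cs (tf a) k} := by
    ext k
    constructor
    · rintro ⟨hk, p, hp, hs, h1, h2⟩
      exact ⟨hk, ⟨p, hp, hs⟩, h1, h2⟩
    · rintro ⟨hk, a, h1, h2⟩
      exact ⟨hk, a.1, a.2.choose, a.2.choose_spec, h1, h2⟩
  rw [he]
  exact h

/-- The infrared bound in mean; for almost every wave vector, uniformly in the parameter, with the
loss of a factor `√χ log χ`; a maximal inequality in terms of the bubble. -/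
theorem result (d : ℕ) (hd : 1 ≤ d) :
    (∀ (p : NNReal) (hp : p ≤ 1), Summable (tau d p hp) →
      (∀ k : Fin d → ℝ, 0 ≤ G d p hp k) ∧
      ∫ k in cube d, G d p hp k =
        (2 * Real.pi) ^ d * (1 - (1 / (d : ℝ)) * ∑ i : Fin d, tau d p hp (Pi.single i 1)) ∧
      ∫ k in cube d, G d p hp k ≤ (2 * Real.pi) ^ d * (1 - p)) ∧
    (∀ X B : ℝ, 0 ≤ X → 0 < B → volume.real {k | k ∈ cube d ∧ ∃ (p : NNReal) (hp : p ≤ 1),
        Summable (tau d p hp) ∧ chi d p hp ≤ X ∧ B ≤ G d p hp k} ≤
      (4 * X / B + 1) * (2 / B) * volume.real (cube d)) ∧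
    (∀ᵐ k : Fin d → ℝ, k ∈ cube d → ∃ C : ℝ, ∀ (p : NNReal) (hp : p ≤ 1),
      Summable (tau d p hp) →
        G d p hp k ≤ C * (Real.sqrt (chi d p hp) * (1 + Real.log (chi d p hp)))) ∧
    (∀ (q : ℕ → NNReal) (hq : ∀ n, q n ≤ 1), (∀ n, Summable (tau d (q n) (hq n))) →
      ∀ᵐ k : Fin d → ℝ, k ∈ cube d → ∃ B : ℝ, ∃ᶠ n in atTop, G d (q n) (hq n) k ≤ B) ∧
    (∀ (X b t : ℝ) (L : ℕ), 1 ≤ X → X + 1 < 2 ^ L → 2 < t →
      (∀ (p : NNReal) (hp : p ≤ 1), Summable (tau d p hp) → chi d p hp ≤ X →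
        ∑' x, (tau d p hp x) ^ 2 ≤ b) →
      volume.real {k | k ∈ cube d ∧ ∃ (p : NNReal) (hp : p ≤ 1), Summable (tau d p hp) ∧
        chi d p hp ≤ X ∧ t ≤ ∑' x, tau d p hp x * Real.cos (dot k x)} ≤
        (L : ℝ) ^ 2 * b / (t - 2) ^ 2 * volume.real (cube d)) :=
  ⟨fun p hp hs => ⟨G_nonneg p hp hs, int_G' hd p hp hs, int_G_le hd p hp hs⟩,
    fun X B hX hB => bad_le hd X B hX hB, ae_bound hd, fun q hq hs => along_sequences hd q hq hs,
    fun X b t L hX hL ht hb => weak_bubble' X b t L hX hL ht hb⟩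

end Pool.Agent.Results.MP_54f242_pr.InfraredMean
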